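import Mathlib

/-!
# A quadratic Poisson structure on `ℂ^5` (Feigin–Odesskii type, for `y² = x³ + 1`)

Coordinates `(v 0, …, v 4) = (1, x, y, x², xy)`.
-/

set_option autoImplicit false

open Finset BigOperators

namespace Pool.Agent.Helper395.PO

/-- the space `ℂ^5` -/
abbrev V := Fin 5 → ℂ

/-- the bilinear entries of the Poisson tensor: the coefficient is `Bm v v i j`. -/
def Bm (u v : V) : Matrix (Fin 5) (Fin 5) ℂ :=
  !![0, -(6 * u 0 * v 2), -(4 * u 0 * v 3 + 5 * u 1 * v 1), -(2 * u 0 * v 4 + 10 * u 1 * v 2),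
      -(5 * u 2 * v 2 + 10 * u 1 * v 3 + u 0 * v 0);
    6 * u 0 * v 2, 0, -(4 * u 1 * v 3 - u 2 * v 2 - 5 * u 0 * v 0),
      -(2 * u 1 * v 4 + 4 * u 2 * v 3), -(5 * u 3 * v 3 + 4 * u 2 * v 4 - 4 * u 0 * v 1);
    4 * u 0 * v 3 + 5 * u 1 * v 1, 4 * u 1 * v 3 - u 2 * v 2 - 5 * u 0 * v 0, 0,
      -(2 * u 2 * v 4 + u 3 * v 3 + 10 * u 0 * v 1), -(6 * u 0 * v 2 + 6 * u 3 * v 4);
    2 * u 0 * v 4 + 10 * u 1 * v 2, 2 * u 1 * v 4 + 4 * u 2 * v 3,
      2 * u 2 * v 4 + u 3 * v 3 + 10 * u 0 * v 1, 0,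
      -(3 * u 4 * v 4 - 5 * u 1 * v 1 - 4 * u 0 * v 3);
    5 * u 2 * v 2 + 10 * u 1 * v 3 + u 0 * v 0, 5 * u 3 * v 3 + 4 * u 2 * v 4 - 4 * u 0 * v 1,
      6 * u 0 * v 2 + 6 * u 3 * v 4, 3 * u 4 * v 4 - 5 * u 1 * v 1 - 4 * u 0 * v 3, 0]

/-- the Poisson tensor -/
def Pm (v : V) : Matrix (Fin 5) (Fin 5) ℂ := Bm v v

lemma Bm_skew (u v : V) (i j : Fin 5) : Bm u v i j = - Bm u v j i := by
  fin_cases i <;> fin_cases j <;> simp [Bm]

lemma Bm_add_left (u u' v : V) (i j : Fin 5) : Bm (u + u') v i j = Bm u v i j + Bm u' v i j := by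
  fin_cases i <;> fin_cases j <;> simp [Bm] <;> ring

lemma Bm_smul_left (c : ℂ) (u v : V) (i j : Fin 5) : Bm (c • u) v i j = c * Bm u v i j := by
  fin_cases i <;> fin_cases j <;> simp [Bm] <;> ring

lemma Bm_add_right (u v v' : V) (i j : Fin 5) : Bm u (v + v') i j = Bm u v i j + Bm u v' i j := by
  fin_cases i <;> fin_cases j <;> simp [Bm] <;> ring

lemma Bm_smul_right (c : ℂ) (u v : V) (i j : Fin 5) : Bm u (c • v) i j = c * Bm u v i j := by
  fin_cases i <;> fin_cases j <;> simp [Bm] <;> ring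

lemma Pm_skew (v : V) (i j : Fin 5) : Pm v i j = - Pm v j i := Bm_skew v v i j

lemma Pm_smul (c : ℂ) (v : V) (i j : Fin 5) : Pm (c • v) i j = c ^ 2 * Pm v i j := by
  unfold Pm; rw [Bm_smul_left, Bm_smul_right]; ring

/-- the Hamiltonian vector of a covector -/
def sh (v : V) (β : Fin 5 → ℂ) : V := fun i => ∑ j, Pm v i j * β j

/-- derivative of the Poisson tensor in the direction `w`, evaluated on covectors. -/
def dN (v w : V) (α β : Fin 5 → ℂ) : ℂ := ∑ i, ∑ j, (Bm w v i j + Bm v w i j) * α i * β j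

set_option maxHeartbeats 4000000 in
/-- **Jacobi identity** for the Poisson tensor. -/
lemma jacobi_tensor (v : V) (α β γ : Fin 5 → ℂ) :
    dN v (sh v γ) α β + dN v (sh v α) β γ + dN v (sh v β) γ α = 0 := by
  simp only [dN, sh, Pm, Fin.sum_univ_five, Bm]
  simp
  ring

end Pool.Agent.Helper395.PO
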