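import Mathlib

/-!
# Compact holomorphic Poisson manifolds: definitions

`X` is a complex manifold of dimension `n`: a topological space with an atlas of charts with
values in `ℂⁿ` (`ChartedSpace (Fin n → ℂ) X`) and holomorphic transition maps
(`IsManifold 𝓘(ℂ, Fin n → ℂ) ω X`; `ω` is analytic regularity).
-/

set_option autoImplicit false

open scoped Manifold ContDiff

namespace Pool.Agent.Helper395.PO

section Defs

variable (n : ℕ) (X : Type) [TopologicalSpace X] [ChartedSpace (Fin n → ℂ) X]

/-- `f` is a holomorphic (i.e. complex analytic) function on the open set `U`. -/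
def HolOn (U : Set X) (f : X → ℂ) : Prop :=
  ContMDiffOn 𝓘(ℂ, Fin n → ℂ) 𝓘(ℂ, ℂ) ω f U

/-- The holomorphic tangent space `TₓX` of `X` at `x` (Mathlib's `TangentSpace`). -/
abbrev Tan (x : X) : Type := TangentSpace 𝓘(ℂ, Fin n → ℂ) x

/-- Short name for Mathlib's instance. -/
noncomputable instance instTanTop (x : X) : TopologicalSpace (Tan n X x) := inferInstance

/-- Short name for Mathlib's instance. -/
noncomputable instance instTanACG (x : X) : AddCommGroup (Tan n X x) := inferInstance

/-- Short name for Mathlib's instance. -/
noncomputable instance instTanMod (x : X) : Module ℂ (Tan n X x) := inferInstance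

/-- The holomorphic cotangent space `T*ₓX` of `X` at `x`. -/
abbrev Cot (x : X) : Type := Tan n X x →L[ℂ] ℂ

/-- Short name for Mathlib's instance. -/
noncomputable instance instCotACG (x : X) : AddCommGroup (Cot n X x) := inferInstance

/-- Short name for Mathlib's instance. -/
noncomputable instance instCotMod (x : X) : Module ℂ (Cot n X x) := inferInstance

/-- The differential `dₓf ∈ T*ₓX`. -/
noncomputable def dif (f : X → ℂ) (x : X) : Cot n X x :=
  (mfderiv 𝓘(ℂ, Fin n → ℂ) 𝓘(ℂ, ℂ) f x : TangentSpace 𝓘(ℂ, Fin n → ℂ) x →L[ℂ] ℂ)

/-- A field of bilinear forms on the cotangent spaces of `X`. -/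
abbrev BilinField : Type := ∀ x : X, LinearMap.BilinForm ℂ (Cot n X x)

variable {n X}

/-- The bracket `{f, g} = ⟨τ, df ∧ dg⟩` of two functions defined by a field `τ` of bilinear forms
on the cotangent spaces. -/
noncomputable def bracket (τ : BilinField n X) (f g : X → ℂ) :
    X → ℂ := fun x => τ x (dif n X f x) (dif n X g x)

/-- `τ` is holomorphic: the bracket of two holomorphic functions on an open set is holomorphic. -/
def IsHol (τ : BilinField n X) : Prop :=
  ∀ U : Set X, IsOpen U → ∀ f g : X → ℂ, HolOn n X U f → HolOn n X U g →
    HolOn n X U (bracket τ f g)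

/-- The bracket satisfies the Jacobi identity for holomorphic functions on open sets. -/
def IsJacobi (τ : BilinField n X) : Prop :=
  ∀ U : Set X, IsOpen U → ∀ f g h : X → ℂ, HolOn n X U f → HolOn n X U g → HolOn n X U h →
    ∀ x ∈ U, bracket τ (bracket τ f g) h x + bracket τ (bracket τ g h) f x
      + bracket τ (bracket τ h f) g x = 0

variable (n X)

/-- A **holomorphic Poisson structure** on `X`: a holomorphic bivector field `τ`, i.e. an
alternating bilinear form `τ x` on each cotangent space `T*ₓX`, depending holomorphically on `x`
(the bracket of two holomorphic functions on an open set is holomorphic), such that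
`{f, g} = ⟨τ, df ∧ dg⟩` satisfies the Jacobi identity on holomorphic functions. -/
structure PoissonStr where
  /-- the bivector field -/
  τ : BilinField n X
  /-- `τ x` is alternating -/
  alt : ∀ x : X, (τ x).IsAlt
  /-- `τ` is holomorphic -/
  hol : IsHol τ
  /-- Jacobi identity -/
  jacobi : IsJacobi τ

variable {n X}

/-- The rank of a bilinear form `b` on a vector space `W`: the rank of the linear map
`α ↦ b (α, ·)` from `W` to its dual. -/
noncomputable def rankForm {W : Type} [AddCommGroup W] [Module ℂ W] (b : LinearMap.BilinForm ℂ W) :
    ℕ := Module.finrank ℂ (LinearMap.range b)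

/-- The rank of `τ` at `x`: the rank of the linear map `α ↦ τ x (α, ·)` from `T*ₓX` to its dual
`(T*ₓX)* = TₓX`. -/
noncomputable def PoissonStr.rank (P : PoissonStr n X) (x : X) : ℕ := rankForm (P.τ x)

/-- The stratum `X_s` of points where `τ` has rank `s`. -/
def PoissonStr.stratum (P : PoissonStr n X) (s : ℕ) : Set X := {x | P.rank x = s}

variable (n) in
/-- The (locally closed analytic) set `A` has dimension at most `d` at its point `x`: there are
`d` holomorphic functions on a neighbourhood `U` of `x` such that `x` is an isolated point of the
common fibre through `x` of these functions in `A`.  (For an analytic germ the least such `d` is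
the dimension.) -/
def DimAtLE (A : Set X) (x : X) (d : ℕ) : Prop :=
  ∃ U : Set X, IsOpen U ∧ x ∈ U ∧ ∃ g : Fin d → X → ℂ, (∀ i, HolOn n X U (g i)) ∧
    ∀ y ∈ A ∩ U, (∀ i, g i y = g i x) → y = x

end Defs

/-- A **compact connected holomorphic Poisson manifold** of dimension `n`. -/
structure CompactPoissonManifold (n : ℕ) where
  /-- the underlying space -/
  X : Type
  [top : TopologicalSpace X]
  [t2 : T2Space X]
  [sc : SecondCountableTopology X]
  [compact : CompactSpace X]
  [connected : ConnectedSpace X]
  [charted : ChartedSpace (Fin n → ℂ) X]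
  [manifold : IsManifold 𝓘(ℂ, Fin n → ℂ) ω X]
  /-- the Poisson structure -/
  P : PoissonStr n X

attribute [instance] CompactPoissonManifold.top CompactPoissonManifold.t2
  CompactPoissonManifold.sc CompactPoissonManifold.compact CompactPoissonManifold.connected
  CompactPoissonManifold.charted CompactPoissonManifold.manifold

end Pool.Agent.Helper395.PO
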