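import Mathlib
import Pool.Agent.Helper395.PO.Alg

/-!
# The Hopf manifold `(ℂ^5 ∖ 0) / (v ∼ 2 v)` as a topological space
-/

set_option autoImplicit false

open Set Topology

namespace Pool.Agent.Helper395.PO

/-- nonzero vectors -/
abbrev M0 := {v : V // v ≠ 0}

/-- `v ∼ 2^k v` -/
def hopfSetoid : Setoid M0 where
  r v w := ∃ k : ℤ, (w : V) = (2 : ℂ) ^ k • (v : V)
  iseqv := by
    refine ⟨fun v => ⟨0, by simp⟩, ?_, ?_⟩
    · rintro v w ⟨k, hk⟩
      refine ⟨-k, ?_⟩
      rw [hk, smul_smul, ← zpow_add₀ two_ne_zero]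
      simp
    · rintro u v w ⟨k, hk⟩ ⟨l, hl⟩
      refine ⟨l + k, ?_⟩
      rw [hl, hk, smul_smul, ← zpow_add₀ two_ne_zero]

/-- the Hopf manifold -/
def Hopf : Type := Quotient hopfSetoid

instance : TopologicalSpace Hopf := inferInstanceAs (TopologicalSpace (Quotient hopfSetoid))

/-- the quotient map -/
def qm (v : M0) : Hopf := Quotient.mk hopfSetoid v

lemma qm_eq_iff {v w : M0} : qm v = qm w ↔ ∃ k : ℤ, (w : V) = (2 : ℂ) ^ k • (v : V) := by
  unfold qm
  exact Quotient.eq (r := hopfSetoid)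

lemma qm_surjective : Function.Surjective qm := Quotient.mk_surjective

lemma qm_continuous : Continuous qm := continuous_quot_mk

/-- multiplication by `2^k` -/
noncomputable def sc (k : ℤ) (v : M0) : M0 :=
  ⟨(2 : ℂ) ^ k • (v : V), smul_ne_zero (zpow_ne_zero k two_ne_zero) v.2⟩

lemma sc_continuous (k : ℤ) : Continuous (sc k) := by
  unfold sc
  have h : Continuous fun v : M0 => (v : V) := continuous_subtype_val
  exact Continuous.subtype_mk (h.const_smul ((2 : ℂ) ^ k)) _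

lemma qm_isOpenMap : IsOpenMap qm := by
  intro U hU
  have h : qm ⁻¹' (qm '' U) = ⋃ k : ℤ, (sc k) ⁻¹' U := by
    ext v
    simp only [mem_preimage, mem_image, mem_iUnion]
    constructor
    · rintro ⟨u, hu, he⟩
      obtain ⟨k, hk⟩ := qm_eq_iff.1 he.symm
      refine ⟨k, ?_⟩
      have : sc k v = u := Subtype.ext hk.symm
      rw [this]; exact hu
    · rintro ⟨k, hk⟩
      refine ⟨sc k v, hk, ?_⟩
      exact (qm_eq_iff.2 ⟨k, rfl⟩).symm
  have h2 : IsOpen (qm ⁻¹' (qm '' U)) := by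
    rw [h]; exact isOpen_iUnion fun k => hU.preimage (sc_continuous k)
  exact (isQuotientMap_quotient_mk' (s := hopfSetoid)).isOpen_preimage.1 h2

lemma qm_isOpenQuotientMap : IsOpenQuotientMap qm :=
  ⟨qm_surjective, qm_continuous, qm_isOpenMap⟩

lemma norm_zpow_smul (k : ℤ) (v : V) : ‖(2 : ℂ) ^ k • v‖ = (2 : ℝ) ^ k * ‖v‖ := by
  rw [norm_smul, norm_zpow]; simp

lemma rel_isClosed : IsClosed {p : M0 × M0 | qm p.1 = qm p.2} := by
  have h : {p : M0 × M0 | qm p.1 = qm p.2} =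
      (fun p : M0 × M0 => Real.logb 2 (‖(p.2 : V)‖ / ‖(p.1 : V)‖)) ⁻¹' (Set.range ((↑) : ℤ → ℝ)) ∩
      {p : M0 × M0 | (p.2 : V) = ((‖(p.2 : V)‖ / ‖(p.1 : V)‖ : ℝ) : ℂ) • (p.1 : V)} := by
    ext ⟨v, w⟩
    simp only [mem_ofPred_eq, mem_inter_iff, mem_preimage, mem_range]
    have hv : 0 < ‖(v : V)‖ := norm_pos_iff.2 v.2
    have hw : 0 < ‖(w : V)‖ := norm_pos_iff.2 w.2
    constructor
    · intro he
      obtain ⟨k, hk⟩ := qm_eq_iff.1 he
      have hn : ‖(w : V)‖ / ‖(v : V)‖ = (2 : ℝ) ^ k := by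
        rw [hk, norm_zpow_smul]; field_simp
      refine ⟨⟨k, ?_⟩, ?_⟩
      · rw [hn, ← Real.rpow_intCast, Real.logb_rpow (by norm_num) (by norm_num)]
      · rw [hn, hk]; push_cast; rfl
    · rintro ⟨⟨k, hk⟩, he⟩
      refine qm_eq_iff.2 ⟨k, ?_⟩
      have hn : ‖(w : V)‖ / ‖(v : V)‖ = (2 : ℝ) ^ k := by
        rw [← Real.rpow_intCast, hk, Real.rpow_logb (by norm_num) (by norm_num) (div_pos hw hv)]
      rw [he, hn]; push_cast; rfl
  rw [h]
  refine IsClosed.inter ?_ ?_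
  · refine IsClosed.preimage ?_ Int.isClosedEmbedding_coe_real.isClosed_range
    have hc : Continuous fun p : M0 × M0 => ‖(p.2 : V)‖ / ‖(p.1 : V)‖ := by
      refine Continuous.div (by fun_prop) (by fun_prop) ?_
      intro p; exact (norm_pos_iff.2 p.1.2).ne'
    unfold Real.logb
    refine Continuous.div_const ?_ _
    refine hc.log ?_
    intro p
    exact (div_pos (norm_pos_iff.2 p.2.2) (norm_pos_iff.2 p.1.2)).ne'
  · have c1 : Continuous fun p : M0 × M0 => (p.1 : V) := continuous_subtype_val.comp continuous_fst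
    have c2 : Continuous fun p : M0 × M0 => (p.2 : V) := continuous_subtype_val.comp continuous_snd
    refine isClosed_eq c2 ?_
    refine Continuous.smul (f := fun p : M0 × M0 => ((‖(p.2 : V)‖ / ‖(p.1 : V)‖ : ℝ) : ℂ)) ?_ c1
    refine Complex.continuous_ofReal.comp ?_
    refine Continuous.div c2.norm c1.norm ?_
    intro p; exact (norm_pos_iff.2 p.1.2).ne'

instance : T2Space Hopf :=
  (t2Space_iff_of_isOpenQuotientMap qm_isOpenQuotientMap).2 rel_isClosed

instance : CompactSpace Hopf := by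
  -- the image of a compact annulus
  have hK : IsCompact {v : M0 | (1 : ℝ) ≤ ‖(v : V)‖ ∧ ‖(v : V)‖ ≤ 2} := by
    rw [Subtype.isCompact_iff]
    have : ((↑) '' {v : M0 | (1 : ℝ) ≤ ‖(v : V)‖ ∧ ‖(v : V)‖ ≤ 2} : Set V)
        = Metric.closedBall (0 : V) 2 ∩ {v : V | 1 ≤ ‖v‖} := by
      ext v
      simp only [mem_image, mem_ofPred_eq, mem_inter_iff, Metric.mem_closedBall, dist_zero_right]
      constructor
      · rintro ⟨w, ⟨h1, h2⟩, rfl⟩; exact ⟨h2, h1⟩
      · rintro ⟨h1, h2⟩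
        refine ⟨⟨v, ?_⟩, ⟨h2, h1⟩, rfl⟩
        intro h0; rw [h0] at h2; simp at h2; linarith
    rw [this]
    exact (isCompact_closedBall 0 2).inter_right (isClosed_le continuous_const continuous_norm)
  have himg : qm '' {v : M0 | (1 : ℝ) ≤ ‖(v : V)‖ ∧ ‖(v : V)‖ ≤ 2} = univ := by
    rw [eq_univ_iff_forall]
    intro p
    obtain ⟨v, rfl⟩ := qm_surjective p
    have hv : 0 < ‖(v : V)‖ := norm_pos_iff.2 v.2
    obtain ⟨n, hn1, hn2⟩ := exists_mem_Ico_zpow (y := (2 : ℝ)) hv (by norm_num)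
    refine ⟨sc (-n) v, ⟨?_, ?_⟩, (qm_eq_iff.2 ⟨-n, rfl⟩).symm⟩
    · show (1 : ℝ) ≤ ‖(2 : ℂ) ^ (-n) • (v : V)‖
      rw [norm_zpow_smul, zpow_neg]
      have : (0 : ℝ) < 2 ^ n := by positivity
      rw [inv_mul_eq_div, le_div_iff₀ this]; linarith
    · show ‖(2 : ℂ) ^ (-n) • (v : V)‖ ≤ 2
      rw [norm_zpow_smul, zpow_neg]
      have : (0 : ℝ) < 2 ^ n := by positivity
      rw [inv_mul_eq_div, div_le_iff₀ this]
      rw [zpow_add₀ (by norm_num : (2 : ℝ) ≠ 0)] at hn2
      simp at hn2; linarith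
  exact ⟨by rw [← himg]; exact hK.image qm_continuous⟩

instance : ConnectedSpace M0 := by
  have h : IsConnected ({(0 : V)}ᶜ) := by
    apply isConnected_compl_singleton_of_one_lt_rank
    have h2 : (1 : Cardinal) < Module.rank ℝ V := by
      have : Module.finrank ℝ V = 10 := by
        rw [← Module.finrank_mul_finrank ℝ ℂ V]
        simp
      rw [← Module.finrank_eq_rank, this]
      norm_num
    exact h2
  exact Subtype.connectedSpace h

instance : ConnectedSpace Hopf := by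
  have : IsConnected (univ : Set Hopf) := by
    rw [← qm_surjective.range_eq]
    exact isConnected_range qm_continuous
  exact connectedSpace_iff_univ.2 this

end Pool.Agent.Helper395.PO
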