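import Mathlib
import Pool.Agent.Helper395.PO.Alg

/-!
# The rank `≤ 2` locus of the Poisson tensor
-/

set_option autoImplicit false

open Finset BigOperators

namespace Pool.Agent.Helper395.PO

def Q1 (v : V) : ℂ := v 0 * v 3 - v 1 * v 1
def Q2 (v : V) : ℂ := v 0 * v 4 - v 1 * v 2
def Q3 (v : V) : ℂ := v 1 * v 4 - v 2 * v 3
def Q4 (v : V) : ℂ := v 2 * v 2 - v 1 * v 3 - v 0 * v 0
def Q5 (v : V) : ℂ := v 2 * v 4 - v 3 * v 3 - v 0 * v 1

/-- Pfaffian of the `4 × 4` minor with rows and columns `i, j, k, l`. -/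
def pf (v : V) (i j k l : Fin 5) : ℂ :=
  Pm v i j * Pm v k l - Pm v i k * Pm v j l + Pm v i l * Pm v j k

lemma pf0 (v : V) : pf v 1 2 3 4 = -20 * Q1 v * Q4 v - 15 * Q2 v ^ 2 + 5 * Q5 v ^ 2 := by
  simp only [pf, Pm, Bm, Q1, Q2, Q4, Q5]; simp; ring

lemma pf1 (v : V) : pf v 0 2 3 4 = -25 * Q1 v ^ 2 + 15 * Q3 v ^ 2 + 10 * Q4 v * Q5 v := by
  simp only [pf, Pm, Bm, Q1, Q3, Q4, Q5]; simp; ring

lemma pf2 (v : V) : pf v 0 1 3 4 = 10 * Q2 v * Q5 v - 20 * Q3 v * Q4 v := by
  simp only [pf, Pm, Bm, Q2, Q3, Q4, Q5]; simp; ring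

lemma pf3 (v : V) : pf v 0 1 2 4 = 20 * Q1 v * Q5 v - 5 * Q4 v ^ 2 := by
  simp only [pf, Pm, Bm, Q1, Q4, Q5]; simp; ring

lemma pf4 (v : V) : pf v 0 1 2 3 = 10 * Q1 v * Q3 v + 10 * Q2 v * Q4 v := by
  simp only [pf, Pm, Bm, Q1, Q2, Q3, Q4]; simp; ring

/-- The five quadrics in `q` have no nonzero common zero. -/
lemma quad_zero {q1 q2 q3 q4 q5 : ℂ} (h0 : -20 * q1 * q4 - 15 * q2 ^ 2 + 5 * q5 ^ 2 = 0)
    (h1 : -25 * q1 ^ 2 + 15 * q3 ^ 2 + 10 * q4 * q5 = 0) (h2 : 10 * q2 * q5 - 20 * q3 * q4 = 0)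
    (h3 : 20 * q1 * q5 - 5 * q4 ^ 2 = 0) (h4 : 10 * q1 * q3 + 10 * q2 * q4 = 0) :
    q1 = 0 ∧ q2 = 0 ∧ q3 = 0 ∧ q4 = 0 ∧ q5 = 0 := by
  have hk : q3 * q4 ^ 2 = 0 := by
    have : 9 * (q3 * q4 ^ 2) = 0 := by
      linear_combination (-2/5 : ℂ) * q4 * h2 - (1/5 : ℂ) * q3 * h3 + (2/5:ℂ) * q5 * h4
    simpa using this
  rcases mul_eq_zero.1 hk with h | h
  · -- q3 = 0
    subst h
    have e2 : q2 * q5 = 0 := by
      have : 10 * (q2 * q5) = 0 := by linear_combination h2
      simpa using this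
    have e4 : q2 * q4 = 0 := by
      have : 10 * (q2 * q4) = 0 := by linear_combination h4
      simpa using this
    have hq2 : q2 = 0 := by
      by_contra hne
      have a5 : q5 = 0 := by rcases mul_eq_zero.1 e2 with h | h; exact absurd h hne; exact h
      have a4 : q4 = 0 := by rcases mul_eq_zero.1 e4 with h | h; exact absurd h hne; exact h
      apply hne
      have : 15 * q2 ^ 2 = 0 := by rw [a5, a4] at h0; linear_combination -h0
      have := (mul_eq_zero.1 this).resolve_left (by norm_num)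
      exact pow_eq_zero_iff (two_ne_zero) |>.1 this
    subst hq2
    have hq1 : q1 = 0 := by
      by_contra hne
      have k1 : q4 * q5 * (q4 * q5 - 16 * q1 ^ 2) = 0 := by
        have e3 : 4 * q1 * q5 = q4 ^ 2 := by linear_combination (1/5 : ℂ) * h3
        have e0 : q5 ^ 2 = 4 * q1 * q4 := by linear_combination (1/5 : ℂ) * h0
        linear_combination q4 ^ 2 * e0 - (4 * q1 * q4) * e3
      have e1 : 5 * q1 ^ 2 = 2 * (q4 * q5) := by linear_combination (-1/5 : ℂ) * h1
      rcases mul_eq_zero.1 k1 with h | h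
      · rw [h] at e1
        have : q1 ^ 2 = 0 := by linear_combination (1/5 : ℂ) * e1
        exact hne (pow_eq_zero_iff two_ne_zero |>.1 this)
      · have : q1 ^ 2 = 0 := by linear_combination (-1/27 : ℂ) * e1 - (2/27 : ℂ) * h
        exact hne (pow_eq_zero_iff two_ne_zero |>.1 this)
    subst hq1
    have hq4 : q4 = 0 := by
      have : q4 ^ 2 = 0 := by linear_combination (-1/5 : ℂ) * h3
      exact pow_eq_zero_iff two_ne_zero |>.1 this
    have hq5 : q5 = 0 := by
      have : q5 ^ 2 = 0 := by linear_combination (1/5 : ℂ) * h0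
      exact pow_eq_zero_iff two_ne_zero |>.1 this
    exact ⟨rfl, rfl, rfl, hq4, hq5⟩
  · -- q4 = 0
    have hq4 : q4 = 0 := pow_eq_zero_iff two_ne_zero |>.1 h
    subst hq4
    have e2 : q2 * q5 = 0 := by
      have : 10 * (q2 * q5) = 0 := by linear_combination h2
      simpa using this
    have hq5 : q5 = 0 := by
      have : q5 ^ 3 = 0 := by linear_combination (1/5 : ℂ) * q5 * h0 + 3 * q2 * e2
      exact pow_eq_zero_iff three_ne_zero |>.1 this
    subst hq5
    have hq2 : q2 = 0 := by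
      have : q2 ^ 2 = 0 := by linear_combination (-1/15 : ℂ) * h0
      exact pow_eq_zero_iff two_ne_zero |>.1 this
    have e4 : q1 * q3 = 0 := by
      have : 10 * (q1 * q3) = 0 := by linear_combination h4
      simpa using this
    have hq1 : q1 = 0 := by
      have : q1 ^ 3 = 0 := by linear_combination (-1/25 : ℂ) * q1 * h1 + (3/5 : ℂ) * q3 * e4
      exact pow_eq_zero_iff three_ne_zero |>.1 this
    subst hq1
    have hq3 : q3 = 0 := by
      have : q3 ^ 2 = 0 := by linear_combination (1/15 : ℂ) * h1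
      exact pow_eq_zero_iff two_ne_zero |>.1 this
    exact ⟨rfl, hq2, hq3, rfl, rfl⟩

/-- all the `4 × 4` Pfaffians vanish at `v` -/
def Deg (v : V) : Prop :=
  pf v 1 2 3 4 = 0 ∧ pf v 0 2 3 4 = 0 ∧ pf v 0 1 3 4 = 0 ∧ pf v 0 1 2 4 = 0 ∧ pf v 0 1 2 3 = 0

lemma Deg.quadrics {v : V} (h : Deg v) :
    Q1 v = 0 ∧ Q2 v = 0 ∧ Q3 v = 0 ∧ Q4 v = 0 ∧ Q5 v = 0 := by
  obtain ⟨a, b, c, d, e⟩ := h
  rw [pf0] at a; rw [pf1] at b; rw [pf2] at c; rw [pf3] at d; rw [pf4] at e
  exact quad_zero a b c d e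

lemma Deg.smul {v : V} (h : Deg v) (c : ℂ) : Deg (c • v) := by
  obtain ⟨a1, a2, a3, a4, a5⟩ := h
  have key : ∀ i j k l, pf (c • v) i j k l = c ^ 4 * pf v i j k l := by
    intro i j k l; simp only [pf, Pm_smul]; ring
  refine ⟨?_, ?_, ?_, ?_, ?_⟩ <;> rw [key] <;> simp [*]

/-- **Isolation**: near a nonzero degenerate point the degenerate points are isolated in the
fibres of two of the coordinates. -/
lemma isolate {p : V} (hp : p ≠ 0) (hdeg : Deg p) :
    ∃ (i j : Fin 5) (ε : ℝ), 0 < ε ∧ ∀ v : V, Deg v → ‖v - p‖ < ε → v i = p i → v j = p j → v = p := by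
  obtain ⟨a1, a2, a3, a4, a5⟩ := hdeg.quadrics
  simp only [Q1, Q2, Q3, Q4, Q5] at a1 a2 a3 a4 a5
  by_cases h0 : p 0 = 0
  · -- the point at infinity
    rw [h0] at a1 a2 a4 a5
    have b1 : p 1 = 0 := by
      have : p 1 * p 1 = 0 := by linear_combination -a1
      exact mul_self_eq_zero.1 this
    rw [b1] at a2 a3 a4 a5
    have b2 : p 2 = 0 := by
      have : p 2 * p 2 = 0 := by linear_combination a4
      exact mul_self_eq_zero.1 this
    rw [b2] at a3 a5
    have b3 : p 3 = 0 := by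
      have : p 3 * p 3 = 0 := by linear_combination -a5
      exact mul_self_eq_zero.1 this
    have b4 : p 4 ≠ 0 := by
      intro h
      apply hp
      funext i; fin_cases i <;> simp [h0, b1, b2, b3, h]
    refine ⟨3, 4, 1, one_pos, ?_⟩
    intro v hv _ h3 h4
    obtain ⟨c1, c2, c3, c4, c5⟩ := hv.quadrics
    simp only [Q1, Q2, Q3, Q4, Q5] at c1 c2 c3 c4 c5
    rw [b3] at h3
    rw [h3, h4] at c3 c5
    have v1 : v 1 = 0 := by
      have : v 1 * p 4 = 0 := by linear_combination c3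
      exact (mul_eq_zero.1 this).resolve_right b4
    rw [v1] at c5 c2
    have v2 : v 2 = 0 := by
      have : v 2 * p 4 = 0 := by linear_combination c5
      exact (mul_eq_zero.1 this).resolve_right b4
    rw [v2, h4] at c2
    have v0 : v 0 = 0 := by
      have : v 0 * p 4 = 0 := by linear_combination c2
      exact (mul_eq_zero.1 this).resolve_right b4
    funext i; fin_cases i <;> simp [v0, v1, v2, h3, h4, h0, b1, b2, b3]
  · by_cases h2 : p 2 = 0
    · refine ⟨0, 1, 1, one_pos, ?_⟩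
      intro v hv _ e0 e1
      obtain ⟨c1, c2, c3, c4, c5⟩ := hv.quadrics
      simp only [Q1, Q2, Q3, Q4, Q5] at c1 c2 c3 c4 c5
      rw [e0, e1] at c1 c2 c4
      have v3 : v 3 = p 3 := by
        have : p 0 * (v 3 - p 3) = 0 := by linear_combination c1 - a1
        exact sub_eq_zero.1 ((mul_eq_zero.1 this).resolve_left h0)
      have v2 : v 2 = 0 := by
        have : v 2 * v 2 = 0 := by
          rw [v3] at c4; rw [h2] at a4; linear_combination c4 - a4
        exact mul_self_eq_zero.1 this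
      have v4 : v 4 = p 4 := by
        have : p 0 * (v 4 - p 4) = 0 := by rw [v2] at c2; rw [h2] at a2; linear_combination c2 - a2
        exact sub_eq_zero.1 ((mul_eq_zero.1 this).resolve_left h0)
      funext i; fin_cases i <;> simp [e0, e1, v2, v3, v4, h2]
    · refine ⟨0, 1, ‖p 2‖, norm_pos_iff.2 h2, ?_⟩
      intro v hv hlt e0 e1
      obtain ⟨c1, c2, c3, c4, c5⟩ := hv.quadrics
      simp only [Q1, Q2, Q3, Q4, Q5] at c1 c2 c3 c4 c5
      rw [e0, e1] at c1 c2 c4
      have v3 : v 3 = p 3 := by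
        have : p 0 * (v 3 - p 3) = 0 := by linear_combination c1 - a1
        exact sub_eq_zero.1 ((mul_eq_zero.1 this).resolve_left h0)
      have v2 : v 2 = p 2 := by
        have h : (v 2 - p 2) * (v 2 + p 2) = 0 := by
          rw [v3] at c4; linear_combination c4 - a4
        rcases mul_eq_zero.1 h with h | h
        · exact sub_eq_zero.1 h
        · exfalso
          have h1 : v 2 = - p 2 := by linear_combination h
          have h3 : ‖(v - p) 2‖ ≤ ‖v - p‖ := norm_le_pi_norm _ _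
          have h4 : ‖(v - p) 2‖ = 2 * ‖p 2‖ := by
            have : (v - p) 2 = - (2 * p 2) := by simp [h1]; ring
            rw [this, norm_neg, norm_mul]; simp
          have h5 : 0 < ‖p 2‖ := norm_pos_iff.2 h2
          linarith
      have v4 : v 4 = p 4 := by
        have : p 0 * (v 4 - p 4) = 0 := by rw [v2] at c2; linear_combination c2 - a2
        exact sub_eq_zero.1 ((mul_eq_zero.1 this).resolve_left h0)
      funext i; fin_cases i <;> simp [e0, e1, v2, v3, v4]

end Pool.Agent.Helper395.PO
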