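import Mathlib
import Pool.Agent.Helper395.PO.Quad

/-!
# The bilinear form on covectors and its rank
-/

set_option autoImplicit false

open Finset BigOperators

namespace Pool.Agent.Helper395.PO

/-- coordinates of a covector -/
noncomputable def cc (α : V →L[ℂ] ℂ) : Fin 5 → ℂ := fun i => α (Pi.single i 1)

lemma cc_add (α β : V →L[ℂ] ℂ) : cc (α + β) = cc α + cc β := by ext; simp [cc]
lemma cc_smul (c : ℂ) (α : V →L[ℂ] ℂ) : cc (c • α) = c • cc α := by ext; simp [cc]

lemma cc_proj (i : Fin 5) : cc (ContinuousLinearMap.proj i : V →L[ℂ] ℂ) = Pi.single i 1 := by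
  ext j
  simp [cc, Pi.single_apply, eq_comm]

/-- the Poisson tensor as a bilinear form on covectors -/
noncomputable def form (v : V) : (V →L[ℂ] ℂ) →ₗ[ℂ] (V →L[ℂ] ℂ) →ₗ[ℂ] ℂ :=
  LinearMap.mk₂ ℂ (fun α β => ∑ i, ∑ j, Pm v i j * cc α i * cc β j)
    (by intro α α' β; simp only [cc_add, Pi.add_apply, ← Finset.sum_add_distrib]
        exact Finset.sum_congr rfl fun i _ => Finset.sum_congr rfl fun j _ => by ring)
    (by intro c α β; simp only [cc_smul, Pi.smul_apply, smul_eq_mul, Finset.mul_sum]
        exact Finset.sum_congr rfl fun i _ => Finset.sum_congr rfl fun j _ => by ring)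
    (by intro α β β'; simp only [cc_add, Pi.add_apply, ← Finset.sum_add_distrib]
        exact Finset.sum_congr rfl fun i _ => Finset.sum_congr rfl fun j _ => by ring)
    (by intro c α β; simp only [cc_smul, Pi.smul_apply, smul_eq_mul, Finset.mul_sum]
        exact Finset.sum_congr rfl fun i _ => Finset.sum_congr rfl fun j _ => by ring)

lemma form_apply (v : V) (α β : V →L[ℂ] ℂ) :
    form v α β = ∑ i, ∑ j, Pm v i j * cc α i * cc β j := rfl

lemma form_skew (v : V) (α β : V →L[ℂ] ℂ) : form v α β = - form v β α := by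
  rw [form_apply, form_apply, Finset.sum_comm, ← Finset.sum_neg_distrib]
  refine Finset.sum_congr rfl fun i _ => ?_
  rw [← Finset.sum_neg_distrib]
  refine Finset.sum_congr rfl fun j _ => ?_
  rw [Pm_skew]; ring

lemma form_self (v : V) (α : V →L[ℂ] ℂ) : form v α α = 0 := by
  have := form_skew v α α
  have h2 : 2 * form v α α = 0 := by linear_combination this
  simpa using h2

lemma form_proj (v : V) (i j : Fin 5) :
    form v (ContinuousLinearMap.proj i) (ContinuousLinearMap.proj j) = Pm v i j := by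
  rw [form_apply, cc_proj, cc_proj]
  simp [Pi.single_apply]

lemma form_smul_point (c : ℂ) (v : V) (α β : V →L[ℂ] ℂ) :
    form (c • v) α β = c ^ 2 * form v α β := by
  rw [form_apply, form_apply, Finset.mul_sum]
  refine Finset.sum_congr rfl fun i _ => ?_
  rw [Finset.mul_sum]
  refine Finset.sum_congr rfl fun j _ => ?_
  rw [Pm_smul]; ring

lemma form_eq_apply_sh (v : V) (α β : V →L[ℂ] ℂ) : form v α β = α (sh v (cc β)) := by
  have h : (sh v (cc β)) = ∑ i, (sh v (cc β) i) • (Pi.single i (1 : ℂ) : V) := by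
    ext k; simp [Pi.single_apply]
  rw [h, map_sum, form_apply]
  refine Finset.sum_congr rfl fun i _ => ?_
  rw [map_smul, smul_eq_mul, sh, Finset.sum_mul]
  refine Finset.sum_congr rfl fun j _ => ?_
  simp only [cc]; ring

lemma det_skew4 (M : Matrix (Fin 4) (Fin 4) ℂ) (h : ∀ i j, M i j = - M j i) :
    M.det = (M 0 1 * M 2 3 - M 0 2 * M 1 3 + M 0 3 * M 1 2) ^ 2 := by
  have d : ∀ i, M i i = 0 := by
    intro i
    have := h i i
    have h2 : 2 * M i i = 0 := by linear_combination this
    simpa using h2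
  rw [Matrix.det_succ_row_zero]
  simp only [Fin.sum_univ_succ, Matrix.det_fin_three, Matrix.submatrix_apply]
  simp [Fin.succAbove, d, Fin.sum_univ_succ, Fin.lt_def]
  rw [h 1 0, h 2 0, h 3 0, h 2 1, h 3 1, h 3 2]
  ring

lemma pf_eq_zero_of_rank {v : V} (h : Module.finrank ℂ (LinearMap.range (form v)) ≤ 3)
    (σ : Fin 4 → Fin 5) : pf v (σ 0) (σ 1) (σ 2) (σ 3) = 0 := by
  by_contra hne
  set M : Matrix (Fin 4) (Fin 4) ℂ := fun a b => Pm v (σ a) (σ b) with hM
  have hdet : M.det ≠ 0 := by
    rw [det_skew4 M (fun i j => Pm_skew v _ _)]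
    exact pow_ne_zero 2 hne
  set w : Fin 4 → LinearMap.range (form v) := fun a =>
    ⟨form v (ContinuousLinearMap.proj (σ a)), LinearMap.mem_range_self _ _⟩ with hw
  have hli : LinearIndependent ℂ w := by
    rw [Fintype.linearIndependent_iff]
    intro g hg
    have h1 : ∀ b, ∑ a, g a * M a b = 0 := by
      intro b
      have h2 := congrArg (fun z : LinearMap.range (form v) =>
        (z : (V →L[ℂ] ℂ) →ₗ[ℂ] ℂ) (ContinuousLinearMap.proj (σ b))) hg
      simp only [hw, ZeroMemClass.coe_zero, LinearMap.zero_apply] at h2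
      rw [← h2]
      rw [AddSubmonoidClass.coe_finsetSum, LinearMap.sum_apply]
      refine Finset.sum_congr rfl fun a _ => ?_
      simp only [SetLike.val_smul, LinearMap.smul_apply, smul_eq_mul, form_proj, hM]
    have h2 : Matrix.vecMul g M = 0 := by
      funext b
      simp only [Matrix.vecMul, dotProduct, Pi.zero_apply]
      exact h1 b
    have := Matrix.eq_zero_of_vecMul_eq_zero hdet h2
    intro i; rw [this]; rfl
  have := hli.fintype_card_le_finrank
  simp at this
  omega

lemma deg_of_rank {v : V} (h : Module.finrank ℂ (LinearMap.range (form v)) ≤ 3) : Deg v := by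
  refine ⟨?_, ?_, ?_, ?_, ?_⟩
  · simpa using pf_eq_zero_of_rank h ![1, 2, 3, 4]
  · simpa using pf_eq_zero_of_rank h ![0, 2, 3, 4]
  · simpa using pf_eq_zero_of_rank h ![0, 1, 3, 4]
  · simpa using pf_eq_zero_of_rank h ![0, 1, 2, 4]
  · simpa using pf_eq_zero_of_rank h ![0, 1, 2, 3]

/-- the point at infinity on the cone over the elliptic curve -/
def pInf : V := Pi.single 4 1

lemma form_pInf (α β : V →L[ℂ] ℂ) :
    form pInf α β = 3 * (cc α 3 * -cc β 4 + cc α 4 * cc β 3) := by
  rw [form_apply]
  simp only [Fin.sum_univ_five, Pm, Bm, pInf]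
  simp
  ring

/-- The form has rank exactly two at the point at infinity. -/
lemma rank_pInf : Module.finrank ℂ (LinearMap.range (form pInf)) = 2 := by
  set w : Fin 2 → LinearMap.range (form pInf) := fun a =>
    ⟨form pInf (ContinuousLinearMap.proj (![3, 4] a)), LinearMap.mem_range_self _ _⟩ with hw
  have hli : LinearIndependent ℂ w := by
    rw [Fintype.linearIndependent_iff]
    intro g hg
    have h0 := congrArg (fun z : LinearMap.range (form pInf) =>
      (z : (V →L[ℂ] ℂ) →ₗ[ℂ] ℂ) (ContinuousLinearMap.proj 3)) hg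
    have h1 := congrArg (fun z : LinearMap.range (form pInf) =>
      (z : (V →L[ℂ] ℂ) →ₗ[ℂ] ℂ) (ContinuousLinearMap.proj 4)) hg
    simp [hw, Fin.sum_univ_two, form_pInf, cc_proj] at h0 h1
    intro i; fin_cases i
    · exact h1
    · exact h0
  have hspan : ⊤ ≤ Submodule.span ℂ (Set.range w) := by
    rintro ⟨z, α, rfl⟩ -
    rw [Submodule.mem_span_range_iff_exists_fun]
    refine ⟨![cc α 3, cc α 4], ?_⟩
    apply Subtype.ext
    rw [AddSubmonoidClass.coe_finsetSum]
    ext β
    rw [LinearMap.sum_apply]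
    simp [hw, Fin.sum_univ_two, form_pInf, cc_proj]
    ring
  have := Module.finrank_eq_card_basis (Module.Basis.mk hli hspan)
  simpa using this

end Pool.Agent.Helper395.PO
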