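import Mathlib
import Pool.Agent.Helper395.PO.Rank

/-!
# The Poisson bracket of holomorphic functions on open subsets of `ℂ^5`
-/

set_option autoImplicit false

open Finset BigOperators
open scoped ContDiff

namespace Pool.Agent.Helper395.PO

/-- the bracket of two functions on `ℂ^5` -/
noncomputable def brV (F G : V → ℂ) (v : V) : ℂ := form v (fderiv ℂ F v) (fderiv ℂ G v)

/-- the bilinear polynomial entries of the Poisson tensor, as continuous bilinear maps -/
noncomputable def BL (i j : Fin 5) : V →L[ℂ] V →L[ℂ] ℂ :=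
  LinearMap.toContinuousLinearMap
    ((LinearMap.toContinuousLinearMap (𝕜 := ℂ) (E := V) (F' := ℂ)).toLinearMap.comp
      (LinearMap.mk₂ ℂ (fun u v => Bm u v i j)
        (fun u u' v => Bm_add_left u u' v i j) (fun c u v => Bm_smul_left c u v i j)
        (fun u v v' => Bm_add_right u v v' i j) (fun c u v => Bm_smul_right c u v i j)))

lemma BL_apply (i j : Fin 5) (u v : V) : BL i j u v = Bm u v i j := rfl

lemma hasFDerivAt_Pm (v : V) (i j : Fin 5) :
    HasFDerivAt (fun u : V => Pm u i j) ((BL i j).flip v + BL i j v) v := by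
  have h := (BL i j).hasFDerivAt (x := v) |>.clm_apply (hasFDerivAt_id v)
  have e : (fun u : V => Pm u i j) = fun u => BL i j u (id u) := by
    funext u; rfl
  rw [e]
  refine h.congr_fderiv ?_
  apply ContinuousLinearMap.ext
  intro w
  simp [add_comm]

lemma contDiff_Pm (i j : Fin 5) : ContDiff ℂ ω (fun u : V => Pm u i j) := by
  have e : (fun u : V => Pm u i j) = fun u => BL i j u (id u) := by
    funext u; rfl
  rw [e]
  exact (BL i j).contDiff.clm_apply contDiff_id

lemma contDiffAt_coord {F : V → ℂ} {v : V} (hF : ContDiffAt ℂ ω F v) (e : V) :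
    ContDiffAt ℂ ω (fun u => fderiv ℂ F u e) v :=
  (hF.fderiv_right (m := ω) (by simp)).clm_apply contDiffAt_const

lemma brV_eq (F G : V → ℂ) : brV F G = fun u => ∑ i, ∑ j, Pm u i j *
    (fderiv ℂ F u (Pi.single i 1)) * (fderiv ℂ G u (Pi.single j 1)) := rfl

lemma brV_contDiffAt {F G : V → ℂ} {v : V} (hF : ContDiffAt ℂ ω F v) (hG : ContDiffAt ℂ ω G v) :
    ContDiffAt ℂ ω (brV F G) v := by
  rw [brV_eq]
  refine ContDiffAt.sum fun i _ => ContDiffAt.sum fun j _ => ?_
  exact ((contDiff_Pm i j).contDiffAt.mul (contDiffAt_coord hF _)).mul (contDiffAt_coord hG _)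

lemma fderiv_brV {F G : V → ℂ} {v : V} (hF : ContDiffAt ℂ ω F v) (hG : ContDiffAt ℂ ω G v)
    (w : V) : fderiv ℂ (brV F G) v w = dN v w (cc (fderiv ℂ F v)) (cc (fderiv ℂ G v))
      + form v (fderiv ℂ (fderiv ℂ F) v w) (fderiv ℂ G v)
      + form v (fderiv ℂ F v) (fderiv ℂ (fderiv ℂ G) v w) := by
  have dF : DifferentiableAt ℂ (fderiv ℂ F) v :=
    (hF.fderiv_right (m := ω) (by simp)).differentiableAt (by simp)
  have dG : DifferentiableAt ℂ (fderiv ℂ G) v :=
    (hG.fderiv_right (m := ω) (by simp)).differentiableAt (by simp)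
  have h1 : ∀ i, HasFDerivAt (fun u => fderiv ℂ F u (Pi.single i (1 : ℂ)))
      ((fderiv ℂ (fderiv ℂ F) v).flip (Pi.single i 1)) v := by
    intro i
    have := dF.hasFDerivAt.clm_apply (hasFDerivAt_const (Pi.single i (1 : ℂ) : V) v)
    refine this.congr_fderiv ?_
    apply ContinuousLinearMap.ext
    intro w
    simp
  have h2 : ∀ i, HasFDerivAt (fun u => fderiv ℂ G u (Pi.single i (1 : ℂ)))
      ((fderiv ℂ (fderiv ℂ G) v).flip (Pi.single i 1)) v := by
    intro i
    have := dG.hasFDerivAt.clm_apply (hasFDerivAt_const (Pi.single i (1 : ℂ) : V) v)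
    refine this.congr_fderiv ?_
    apply ContinuousLinearMap.ext
    intro w
    simp
  have h3 := HasFDerivAt.fun_sum (u := Finset.univ) fun i _ =>
    HasFDerivAt.fun_sum (u := Finset.univ) fun j _ =>
      ((hasFDerivAt_Pm v i j).fun_mul (h1 i)).fun_mul (h2 j)
  rw [brV_eq, h3.fderiv]
  rw [form_apply, form_apply, dN, _root_.sum_apply, ← Finset.sum_add_distrib,
    ← Finset.sum_add_distrib]
  refine Finset.sum_congr rfl fun i _ => ?_
  rw [_root_.sum_apply, ← Finset.sum_add_distrib, ← Finset.sum_add_distrib]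
  refine Finset.sum_congr rfl fun j _ => ?_
  simp [BL_apply, cc]
  ring

lemma brV_brV {F G H : V → ℂ} {v : V} (hF : ContDiffAt ℂ ω F v) (hG : ContDiffAt ℂ ω G v) :
    brV (brV F G) H v
      = dN v (sh v (cc (fderiv ℂ H v))) (cc (fderiv ℂ F v)) (cc (fderiv ℂ G v))
      + fderiv ℂ (fderiv ℂ F) v (sh v (cc (fderiv ℂ H v))) (sh v (cc (fderiv ℂ G v)))
      - fderiv ℂ (fderiv ℂ G) v (sh v (cc (fderiv ℂ H v))) (sh v (cc (fderiv ℂ F v))) := by
  rw [brV, form_eq_apply_sh, fderiv_brV hF hG, form_skew v (fderiv ℂ F v), form_eq_apply_sh,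
    form_eq_apply_sh]
  ring

/-- **Jacobi identity** for holomorphic functions on `ℂ^5`. -/
lemma brV_jacobi {F G H : V → ℂ} {v : V} (hF : ContDiffAt ℂ ω F v) (hG : ContDiffAt ℂ ω G v)
    (hH : ContDiffAt ℂ ω H v) :
    brV (brV F G) H v + brV (brV G H) F v + brV (brV H F) G v = 0 := by
  rw [brV_brV hF hG, brV_brV hG hH, brV_brV hH hF]
  have sF := hF.isSymmSndFDerivAt_of_omega
  have sG := hG.isSymmSndFDerivAt_of_omega
  have sH := hH.isSymmSndFDerivAt_of_omega
  have j := jacobi_tensor v (cc (fderiv ℂ F v)) (cc (fderiv ℂ G v)) (cc (fderiv ℂ H v))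
  have e1 := sF.eq (sh v (cc (fderiv ℂ H v))) (sh v (cc (fderiv ℂ G v)))
  have e2 := sG.eq (sh v (cc (fderiv ℂ H v))) (sh v (cc (fderiv ℂ F v)))
  have e3 := sH.eq (sh v (cc (fderiv ℂ F v))) (sh v (cc (fderiv ℂ G v)))
  linear_combination j + e1 - e2 - e3

end Pool.Agent.Helper395.PO
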