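import Mathlib
import Pool.Agent.Helper395.PO.Hopf

/-!
# The complex manifold structure on the Hopf manifold
-/

set_option autoImplicit false

open Set Topology
open scoped Manifold ContDiff

namespace Pool.Agent.Helper395.PO

/-- a nonzero vector -/
def e4 : M0 := ⟨Pi.single 4 1, by
  intro h
  have := congrFun h 4
  simp at this⟩

open Classical in
/-- the quotient map, extended by a junk value at `0` -/
noncomputable def Qm (v : V) : Hopf := if h : v ≠ 0 then qm ⟨v, h⟩ else qm e4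

lemma Qm_of_ne {v : V} (h : v ≠ 0) : Qm v = qm ⟨v, h⟩ := dif_pos h

lemma Qm_coe (v : M0) : Qm (v : V) = qm v := Qm_of_ne v.2

lemma Qm_eq_iff {v w : V} (hv : v ≠ 0) (hw : w ≠ 0) :
    Qm v = Qm w ↔ ∃ k : ℤ, w = (2 : ℂ) ^ k • v := by
  rw [Qm_of_ne hv, Qm_of_ne hw, qm_eq_iff]

lemma Qm_zpow_smul (k : ℤ) {v : V} (hv : v ≠ 0) : Qm ((2 : ℂ) ^ k • v) = Qm v := by
  have h : (2 : ℂ) ^ k • v ≠ 0 := smul_ne_zero (zpow_ne_zero k two_ne_zero) hv
  exact ((Qm_eq_iff hv h).2 ⟨k, rfl⟩).symm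

lemma isOpen_ne0 : IsOpen {v : V | v ≠ 0} := isOpen_ne

lemma Qm_continuousOn : ContinuousOn Qm {v : V | v ≠ 0} := by
  rw [continuousOn_iff_continuous_domRestrict]
  have : ({v : V | v ≠ 0}.domRestrict Qm) = qm := by
    funext v
    exact Qm_coe v
  rw [this]
  exact qm_continuous

lemma Qm_image_open {U : Set V} (hU : IsOpen U) (h0 : ∀ v ∈ U, v ≠ 0) : IsOpen (Qm '' U) := by
  have : Qm '' U = qm '' ((↑) ⁻¹' U) := by
    ext p
    constructor
    · rintro ⟨v, hv, rfl⟩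
      exact ⟨⟨v, h0 v hv⟩, hv, (Qm_of_ne _).symm⟩
    · rintro ⟨v, hv, rfl⟩
      exact ⟨v, hv, Qm_coe v⟩
  rw [this]
  exact qm_isOpenMap _ (hU.preimage continuous_subtype_val)

/-- a ball around `x` on which the quotient map is injective -/
def bl (x : M0) : Set V := Metric.ball (x : V) (‖(x : V)‖ / 4)

lemma bl_open (x : M0) : IsOpen (bl x) := Metric.isOpen_ball

lemma mem_bl (x : M0) : (x : V) ∈ bl x := by
  have : 0 < ‖(x : V)‖ := norm_pos_iff.2 x.2
  exact Metric.mem_ball_self (by linarith)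

lemma bl_norm {x : M0} {v : V} (hv : v ∈ bl x) :
    3 / 4 * ‖(x : V)‖ < ‖v‖ ∧ ‖v‖ < 5 / 4 * ‖(x : V)‖ := by
  have h := Metric.mem_ball.1 hv
  rw [dist_eq_norm] at h
  have h1 : ‖v‖ ≤ ‖v - x‖ + ‖(x : V)‖ := by
    simpa using norm_add_le (v - x) (x : V)
  have h2 : ‖(x : V)‖ ≤ ‖v - x‖ + ‖v‖ := by
    have := norm_add_le ((x : V) - v) v
    rw [norm_sub_rev] at this
    simpa using this
  constructor <;> linarith

lemma bl_ne {x : M0} {v : V} (hv : v ∈ bl x) : v ≠ 0 := by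
  have h := (bl_norm hv).1
  have : 0 < ‖(x : V)‖ := norm_pos_iff.2 x.2
  intro h0
  rw [h0] at h
  simp at h
  linarith

lemma bl_unique {x : M0} {v : V} {k : ℤ} (hv : v ∈ bl x) (hw : (2 : ℂ) ^ k • v ∈ bl x) :
    k = 0 := by
  have hx : 0 < ‖(x : V)‖ := norm_pos_iff.2 x.2
  have h1 := bl_norm hv
  have h2 := bl_norm hw
  rw [norm_zpow_smul] at h2
  have hvp : 0 < ‖v‖ := by linarith
  rcases lt_trichotomy k 0 with hk | hk | hk
  · exfalso
    have : (2 : ℝ) ^ k ≤ 2 ^ (-1 : ℤ) := zpow_le_zpow_right₀ (by norm_num) (by omega)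
    norm_num at this
    have h3 : (2 : ℝ) ^ k * ‖v‖ ≤ 1 / 2 * ‖v‖ := mul_le_mul_of_nonneg_right this hvp.le
    linarith
  · exact hk
  · exfalso
    have : (2 : ℝ) ^ (1 : ℤ) ≤ 2 ^ k := zpow_le_zpow_right₀ (by norm_num) (by omega)
    norm_num at this
    have h3 : 2 * ‖v‖ ≤ (2 : ℝ) ^ k * ‖v‖ := mul_le_mul_of_nonneg_right this hvp.le
    linarith

lemma Qm_injOn (x : M0) : InjOn Qm (bl x) := by
  intro v hv w hw h
  obtain ⟨k, hk⟩ := (Qm_eq_iff (bl_ne hv) (bl_ne hw)).1 h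
  rw [hk] at hw
  have := bl_unique hv hw
  rw [this] at hk
  simpa using hk.symm

/-- the local inverse charts -/
noncomputable def lq (x : M0) : OpenPartialHomeomorph V Hopf :=
  OpenPartialHomeomorph.ofContinuousOpenRestrict
    ((Qm_injOn x).toPartialEquiv Qm (bl x))
    (Qm_continuousOn.mono fun _ hv => bl_ne hv)
    (by
      intro U hU
      obtain ⟨W, hW, rfl⟩ := isOpen_induced_iff.1 hU
      have : ((Qm_injOn x).toPartialEquiv Qm (bl x)).source.domRestrict
          ((Qm_injOn x).toPartialEquiv Qm (bl x)) '' (Subtype.val ⁻¹' W) = Qm '' (bl x ∩ W) := by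
        ext p
        constructor
        · rintro ⟨v, hv, rfl⟩
          exact ⟨v, ⟨v.2, hv⟩, rfl⟩
        · rintro ⟨v, ⟨hv1, hv2⟩, rfl⟩
          exact ⟨⟨v, hv1⟩, hv2, rfl⟩
      rw [this]
      exact Qm_image_open ((bl_open x).inter hW) fun v hv => bl_ne hv.1)
    (bl_open x)

lemma lq_coe (x : M0) : (lq x : V → Hopf) = Qm := rfl
lemma lq_source (x : M0) : (lq x).source = bl x := rfl
lemma lq_target (x : M0) : (lq x).target = Qm '' bl x := rfl

/-- the charts of the Hopf manifold -/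
noncomputable def ch (x : M0) : OpenPartialHomeomorph Hopf V := (lq x).symm

lemma ch_symm_coe (x : M0) : ((ch x).symm : V → Hopf) = Qm := rfl
lemma ch_target (x : M0) : (ch x).target = bl x := rfl
lemma ch_source (x : M0) : (ch x).source = Qm '' bl x := rfl

lemma ch_Qm {x : M0} {v : V} (hv : v ∈ bl x) : ch x (Qm v) = v :=
  (lq x).left_inv hv

lemma Qm_ch {x : M0} {p : Hopf} (hp : p ∈ (ch x).source) : Qm (ch x p) = p :=
  (ch x).left_inv hp

lemma ch_mem {x : M0} {p : Hopf} (hp : p ∈ (ch x).source) : ch x p ∈ bl x :=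
  (ch x).map_source hp

/-- a lift of a point of the Hopf manifold -/
noncomputable def lift (p : Hopf) : M0 := Quotient.out p

lemma qm_lift (p : Hopf) : qm (lift p) = p := Quotient.out_eq p

lemma Qm_lift (p : Hopf) : Qm (lift p : V) = p := by rw [Qm_coe, qm_lift]

noncomputable instance : ChartedSpace V Hopf where
  atlas := Set.range ch
  chartAt p := ch (lift p)
  mem_chart_source p := by
    rw [ch_source]
    exact ⟨lift p, mem_bl _, Qm_lift p⟩
  chart_mem_atlas p := ⟨lift p, rfl⟩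

lemma chartAt_eq (p : Hopf) : chartAt V p = ch (lift p) := rfl

lemma chartAt_self (p : Hopf) : chartAt V p p = (lift p : V) := by
  rw [chartAt_eq]
  have := ch_Qm (mem_bl (lift p))
  rw [Qm_lift] at this
  exact this

instance : IsManifold 𝓘(ℂ, V) ω Hopf := by
  refine isManifold_of_contDiffOn 𝓘(ℂ, V) ω Hopf ?_
  rintro e e' ⟨x, rfl⟩ ⟨y, rfl⟩
  intro v hv
  simp only [modelWithCornersSelf_coe_symm, modelWithCornersSelf_coe, range_id, inter_univ,
    preimage_id_eq, id_eq] at hv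
  have hv1 : v ∈ bl x := by
    have h2 : v ∈ ((ch x).symm ≫ₕ ch y).source := hv
    rw [OpenPartialHomeomorph.trans_source] at h2
    exact h2.1
  have hv2 : Qm v ∈ (ch y).source := by
    have h2 : v ∈ ((ch x).symm ≫ₕ ch y).source := hv
    rw [OpenPartialHomeomorph.trans_source] at h2
    exact h2.2
  -- near `v` the map is multiplication by `2^k`
  obtain ⟨k, hk⟩ := (Qm_eq_iff (bl_ne hv1) (bl_ne (ch_mem hv2))).1 (Qm_ch hv2).symm
  have hev : ∀ᶠ w in nhds v, ch y (Qm w) = (2 : ℂ) ^ k • w := by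
    have h1 : ∀ᶠ w in nhds v, w ≠ 0 := isOpen_ne0.mem_nhds (bl_ne hv1)
    have h2 : ∀ᶠ w in nhds v, (2 : ℂ) ^ k • w ∈ bl y := by
      have hc : Continuous fun w : V => (2 : ℂ) ^ k • w := continuous_const_smul _
      refine hc.continuousAt.eventually ((bl_open y).mem_nhds ?_)
      show (2 : ℂ) ^ k • v ∈ bl y
      rw [← hk]; exact ch_mem hv2
    filter_upwards [h1, h2] with w hw1 hw2
    rw [← Qm_zpow_smul k hw1, ch_Qm hw2]
  have hcd : ContDiffAt ℂ ω (fun w : V => (2 : ℂ) ^ k • w) v :=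
    (contDiff_const_smul _).contDiffAt
  refine (hcd.congr_of_eventuallyEq ?_).contDiffWithinAt
  filter_upwards [hev] with w hw
  exact hw

end Pool.Agent.Helper395.PO
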