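import Mathlib
import Pool.Agent.Helper395.PO.Defs
import Pool.Agent.Helper395.PO.Man
import Pool.Agent.Helper395.PO.Jac

/-!
# Holomorphic functions on the Hopf manifold and on `ℂ^5 ∖ 0`
-/

set_option autoImplicit false

open Set Topology Filter
open scoped Manifold ContDiff

namespace Pool.Agent.Helper395.PO

lemma ch_mem_maximalAtlas (x : M0) :
    ch x ∈ IsManifold.maximalAtlas 𝓘(ℂ, V) ω Hopf :=
  IsManifold.subset_maximalAtlas ⟨x, rfl⟩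

lemma Qm_contMDiffAt {v : V} (hv : v ≠ 0) : ContMDiffAt 𝓘(ℂ, V) 𝓘(ℂ, V) ω Qm v := by
  have h := contMDiffOn_symm_of_mem_maximalAtlas (ch_mem_maximalAtlas ⟨v, hv⟩)
  rw [ch_symm_coe, ch_target] at h
  exact h.contMDiffAt ((bl_open _).mem_nhds (mem_bl ⟨v, hv⟩))

lemma ch_contMDiffOn (x : M0) : ContMDiffOn 𝓘(ℂ, V) 𝓘(ℂ, V) ω (ch x) (ch x).source :=
  contMDiffOn_of_mem_maximalAtlas (ch_mem_maximalAtlas x)

/-- pull back a holomorphic function to `ℂ^5 ∖ 0` -/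
lemma HolOn.contDiffAt {U : Set Hopf} (hU : IsOpen U) {f : Hopf → ℂ} (hf : HolOn 5 Hopf U f)
    {v : V} (hv : v ≠ 0) (hvU : Qm v ∈ U) : ContDiffAt ℂ ω (f ∘ Qm) v := by
  have h1 : ContMDiffAt 𝓘(ℂ, V) 𝓘(ℂ, ℂ) ω f (Qm v) := hf.contMDiffAt (hU.mem_nhds hvU)
  have h2 := h1.comp v (Qm_contMDiffAt hv)
  exact contMDiffAt_iff_contDiffAt.1 h2

lemma contMDiffAt_of_contDiffAt {f : Hopf → ℂ} {p : Hopf}
    (h : ContDiffAt ℂ ω (f ∘ Qm) (lift p : V)) : ContMDiffAt 𝓘(ℂ, V) 𝓘(ℂ, ℂ) ω f p := by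
  have hp : p ∈ (ch (lift p)).source := mem_chart_source V p
  have h1 : ContMDiffAt 𝓘(ℂ, V) 𝓘(ℂ, ℂ) ω (f ∘ Qm) (ch (lift p) p) := by
    rw [← chartAt_eq, chartAt_self]
    exact contMDiffAt_iff_contDiffAt.2 h
  have h2 : ContMDiffAt 𝓘(ℂ, V) 𝓘(ℂ, V) ω (ch (lift p)) p :=
    (ch_contMDiffOn (lift p)).contMDiffAt ((ch (lift p)).open_source.mem_nhds hp)
  have h3 := h1.comp p h2
  refine h3.congr_of_eventuallyEq ?_
  filter_upwards [(ch (lift p)).open_source.mem_nhds hp] with z hz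
  simp only [Function.comp_apply]
  rw [Qm_ch hz]

lemma holOn_of_contDiffAt {U : Set Hopf} {f : Hopf → ℂ}
    (h : ∀ p ∈ U, ContDiffAt ℂ ω (f ∘ Qm) (lift p : V)) : HolOn 5 Hopf U f :=
  fun p hp => (contMDiffAt_of_contDiffAt (h p hp)).contMDiffWithinAt

lemma dif_eq {f : Hopf → ℂ} {p : Hopf} (h : MDifferentiableAt 𝓘(ℂ, V) 𝓘(ℂ, ℂ) f p) :
    (dif 5 Hopf f p : V →L[ℂ] ℂ) = fderiv ℂ (f ∘ Qm) (lift p : V) := by
  have e := h.mfderiv
  have e2 : fderivWithin ℂ (writtenInExtChartAt 𝓘(ℂ, V) 𝓘(ℂ, ℂ) p f) (range 𝓘(ℂ, V))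
      (extChartAt 𝓘(ℂ, V) p p) = fderiv ℂ (f ∘ Qm) (lift p : V) := by
    have h1 : writtenInExtChartAt 𝓘(ℂ, V) 𝓘(ℂ, ℂ) p f = f ∘ Qm := by
      funext v
      simp only [writtenInExtChartAt, mfld_simps]
      rfl
    have h2 : extChartAt 𝓘(ℂ, V) p p = (lift p : V) := by
      simp only [mfld_simps]
      exact chartAt_self p
    rw [h1, h2]
    simp only [modelWithCornersSelf_coe, range_id, fderivWithin_univ]
  exact e.trans e2

end Pool.Agent.Helper395.PO
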