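import Mathlib
import Pool.Agent.Helper395.PO.Transfer

/-!
# The Poisson structure on the Hopf manifold
-/

set_option autoImplicit false

open Set Topology Filter
open scoped Manifold ContDiff

namespace Pool.Agent.Helper395.PO

/-- the bivector field on the Hopf manifold -/
noncomputable def τH (p : Hopf) : Cot 5 Hopf p →ₗ[ℂ] Cot 5 Hopf p →ₗ[ℂ] ℂ := form (lift p : V)

lemma lift_ne (p : Hopf) : (lift p : V) ≠ 0 := (lift p).2

lemma Qm_scale_eventually (k : ℤ) {w : V} (hw : w ≠ 0) (f : Hopf → ℂ) :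
    (f ∘ Qm) =ᶠ[nhds w] fun u => (f ∘ Qm) ((2 : ℂ) ^ k • u) := by
  filter_upwards [isOpen_ne0.mem_nhds hw] with u hu
  simp only [Function.comp_apply]
  rw [Qm_zpow_smul k hu]

lemma contDiffAt_scale (k : ℤ) {w : V} (hw : w ≠ 0) {f : Hopf → ℂ}
    (h : ContDiffAt ℂ ω (f ∘ Qm) ((2 : ℂ) ^ k • w)) : ContDiffAt ℂ ω (f ∘ Qm) w := by
  have h1 : ContDiffAt ℂ ω (fun u : V => (2 : ℂ) ^ k • u) w := (contDiff_const_smul _).contDiffAt
  exact (h.comp w h1).congr_of_eventuallyEq (Qm_scale_eventually k hw f)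

lemma fderiv_scale (k : ℤ) {w : V} (hw : w ≠ 0) {f : Hopf → ℂ}
    (h : ContDiffAt ℂ ω (f ∘ Qm) ((2 : ℂ) ^ k • w)) :
    fderiv ℂ (f ∘ Qm) w = (2 : ℂ) ^ k • fderiv ℂ (f ∘ Qm) ((2 : ℂ) ^ k • w) := by
  have h1 : HasFDerivAt (fun u : V => (2 : ℂ) ^ k • u)
      ((2 : ℂ) ^ k • ContinuousLinearMap.id ℂ V) w := (hasFDerivAt_id w).fun_const_smul _
  have h2 : HasFDerivAt (f ∘ Qm) (fderiv ℂ (f ∘ Qm) ((2 : ℂ) ^ k • w)) ((2 : ℂ) ^ k • w) :=
    (h.differentiableAt (by simp)).hasFDerivAt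
  have h3 := (h2.comp w h1).congr_of_eventuallyEq (Qm_scale_eventually k hw f)
  rw [h3.fderiv]
  apply ContinuousLinearMap.ext
  intro u
  simp

/-- The bracket on the Hopf manifold is computed on `ℂ^5 ∖ 0`. -/
lemma bracket_Qm {v : V} (hv : v ≠ 0) {f g : Hopf → ℂ} (hf : ContDiffAt ℂ ω (f ∘ Qm) v)
    (hg : ContDiffAt ℂ ω (g ∘ Qm) v) :
    bracket τH f g (Qm v) = brV (f ∘ Qm) (g ∘ Qm) v := by
  obtain ⟨k, hk⟩ := (Qm_eq_iff (lift_ne (Qm v)) hv).1 (Qm_lift (Qm v))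
  set p := Qm v with hp
  have hf' : ContDiffAt ℂ ω (f ∘ Qm) ((2 : ℂ) ^ k • (lift p : V)) := by rw [← hk]; exact hf
  have hg' : ContDiffAt ℂ ω (g ∘ Qm) ((2 : ℂ) ^ k • (lift p : V)) := by rw [← hk]; exact hg
  have mf : MDifferentiableAt 𝓘(ℂ, V) 𝓘(ℂ, ℂ) f p :=
    (contMDiffAt_of_contDiffAt (contDiffAt_scale k (lift_ne p) hf')).mdifferentiableAt (by simp)
  have mg : MDifferentiableAt 𝓘(ℂ, V) 𝓘(ℂ, ℂ) g p :=
    (contMDiffAt_of_contDiffAt (contDiffAt_scale k (lift_ne p) hg')).mdifferentiableAt (by simp)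
  have e : bracket τH f g p
      = form (lift p : V) (fderiv ℂ (f ∘ Qm) (lift p : V)) (fderiv ℂ (g ∘ Qm) (lift p : V)) := by
    rw [← dif_eq mf, ← dif_eq mg]; rfl
  rw [e, fderiv_scale k (lift_ne p) hf', fderiv_scale k (lift_ne p) hg', ← hk, brV]
  conv_rhs => rw [hk, form_smul_point]
  rw [← hk]
  simp only [map_smul, LinearMap.smul_apply, smul_eq_mul]
  ring

lemma bracket_comp_eventually {U : Set Hopf} (hU : IsOpen U) {f g : Hopf → ℂ}
    (hf : HolOn 5 Hopf U f) (hg : HolOn 5 Hopf U g) {v : V} (hv : v ≠ 0) (hvU : Qm v ∈ U) :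
    (bracket τH f g ∘ Qm) =ᶠ[nhds v] brV (f ∘ Qm) (g ∘ Qm) := by
  have h1 : ∀ᶠ w in nhds v, Qm w ∈ U :=
    (Qm_continuousOn.continuousAt (isOpen_ne0.mem_nhds hv)).eventually (hU.mem_nhds hvU)
  filter_upwards [isOpen_ne0.mem_nhds hv, h1] with w hw hwU
  exact bracket_Qm hw (hf.contDiffAt hU hw hwU) (hg.contDiffAt hU hw hwU)

lemma bracket_hol {U : Set Hopf} (hU : IsOpen U) {f g : Hopf → ℂ}
    (hf : HolOn 5 Hopf U f) (hg : HolOn 5 Hopf U g) : HolOn 5 Hopf U (bracket τH f g) := by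
  refine holOn_of_contDiffAt fun p hp => ?_
  have hpU : Qm (lift p : V) ∈ U := by rw [Qm_lift]; exact hp
  exact (brV_contDiffAt (hf.contDiffAt hU (lift_ne p) hpU)
    (hg.contDiffAt hU (lift_ne p) hpU)).congr_of_eventuallyEq
      (bracket_comp_eventually hU hf hg (lift_ne p) hpU)

lemma bracket_bracket {U : Set Hopf} (hU : IsOpen U) {f g h : Hopf → ℂ}
    (hf : HolOn 5 Hopf U f) (hg : HolOn 5 Hopf U g) (hh : HolOn 5 Hopf U h) {p : Hopf}
    (hp : p ∈ U) : bracket τH (bracket τH f g) h p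
      = brV (brV (f ∘ Qm) (g ∘ Qm)) (h ∘ Qm) (lift p : V) := by
  have hpU : Qm (lift p : V) ∈ U := by rw [Qm_lift]; exact hp
  have h1 := bracket_Qm (lift_ne p) ((bracket_hol hU hf hg).contDiffAt hU (lift_ne p) hpU)
    (hh.contDiffAt hU (lift_ne p) hpU)
  rw [Qm_lift] at h1
  rw [h1, brV, (bracket_comp_eventually hU hf hg (lift_ne p) hpU).fderiv_eq, ← brV]

/-- **The Poisson structure on the Hopf manifold.** -/
noncomputable def PH : PoissonStr 5 Hopf where
  τ := τH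
  alt p α := form_self (lift p : V) α
  hol U hU f g hf hg := bracket_hol hU hf hg
  jacobi U hU f g h hf hg hh p hp := by
    rw [bracket_bracket hU hf hg hh hp, bracket_bracket hU hg hh hf hp,
      bracket_bracket hU hh hf hg hp]
    have hpU : Qm (lift p : V) ∈ U := by rw [Qm_lift]; exact hp
    exact brV_jacobi (hf.contDiffAt hU (lift_ne p) hpU) (hg.contDiffAt hU (lift_ne p) hpU)
      (hh.contDiffAt hU (lift_ne p) hpU)

lemma PH_rank (p : Hopf) :
    PH.rank p = Module.finrank ℂ (LinearMap.range (form (lift p : V))) := rfl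

lemma form_scale (c : ℂ) (v : V) : form (c • v) = (c ^ 2) • form v := by
  ext α β; simp [form_smul_point]

lemma rank_scale {c : ℂ} (hc : c ≠ 0) (v : V) :
    Module.finrank ℂ (LinearMap.range (form (c • v)))
      = Module.finrank ℂ (LinearMap.range (form v)) := by
  rw [form_scale, LinearMap.range_smul _ _ (pow_ne_zero 2 hc)]

lemma deg_of_mem {p : Hopf} (hp : p ∈ PH.stratum 2) {v : V} (hv : v ≠ 0) (hpv : Qm v = p) :
    Deg v := by
  have h1 : Deg (lift p : V) := by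
    apply deg_of_rank
    have : PH.rank p = 2 := hp
    rw [PH_rank] at this
    omega
  obtain ⟨k, hk⟩ := (Qm_eq_iff (lift_ne p) hv).1 (by rw [Qm_lift, hpv])
  rw [hk]
  exact h1.smul _

/-- The stratum of points of rank two is not empty. -/
lemma stratum_nonempty : (PH.stratum 2).Nonempty := by
  have h4 : pInf ≠ 0 := e4.2
  refine ⟨Qm pInf, ?_⟩
  show PH.rank (Qm pInf) = 2
  obtain ⟨k, hk⟩ := (Qm_eq_iff h4 (lift_ne (Qm pInf))).1 (by rw [Qm_lift])
  rw [PH_rank, hk, rank_scale (zpow_ne_zero k two_ne_zero), rank_pInf]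

/-- The stratum of points of rank two has dimension at most two at each of its points. -/
lemma stratum_dim (p : Hopf) (hp : p ∈ PH.stratum 2) : DimAtLE 5 (PH.stratum 2) p 2 := by
  obtain ⟨i, j, ε, hε, hiso⟩ := isolate (lift_ne p) (deg_of_mem hp (lift_ne p) (Qm_lift p))
  set c := ch (lift p) with hc
  have hps : p ∈ c.source := mem_chart_source V p
  have hcp : c p = (lift p : V) := chartAt_self p
  refine ⟨c.source ∩ c ⁻¹' Metric.ball (lift p : V) ε,
    c.isOpen_inter_preimage Metric.isOpen_ball, ⟨hps, ?_⟩, ![fun z => c z i, fun z => c z j],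
    ?_, ?_⟩
  · rw [mem_preimage, hcp]; exact Metric.mem_ball_self hε
  · have key : ∀ l : Fin 5, HolOn 5 Hopf (c.source ∩ c ⁻¹' Metric.ball (lift p : V) ε)
        (fun z => c z l) := by
      intro l
      have h1 : ContMDiffOn 𝓘(ℂ, V) 𝓘(ℂ, V) ω c c.source := ch_contMDiffOn (lift p)
      have h2 : ContMDiff 𝓘(ℂ, V) 𝓘(ℂ, ℂ) ω (ContinuousLinearMap.proj l : V →L[ℂ] ℂ) :=
        (ContinuousLinearMap.proj l : V →L[ℂ] ℂ).contMDiff
      exact (h2.comp_contMDiffOn h1).mono inter_subset_left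
    intro l
    fin_cases l
    · exact key i
    · exact key j
  · rintro z ⟨hz, hzs, hzb⟩ hg
    have h0 := hg 0
    have h1 := hg 1
    simp only [Matrix.cons_val_zero, Matrix.cons_val_one] at h0 h1
    rw [hcp] at h0 h1
    have hne : c z ≠ 0 := bl_ne (ch_mem hzs)
    have hQ : Qm (c z) = z := Qm_ch hzs
    have hd : Deg (c z) := deg_of_mem hz hne hQ
    have hb : ‖c z - (lift p : V)‖ < ε := by
      rw [← dist_eq_norm]; exact hzb
    have := hiso (c z) hd hb h0 h1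
    rw [← hQ, this, Qm_lift]

end Pool.Agent.Helper395.PO
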